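import Mathlib

/-!
# Cayley balls in Schreier graphs of Thompson's group `F` can be far from the root

Let `H` be the pointwise stabilizer in `F` of a sequence `pp j → 0` with `0 < pp j ≤ 2 ^ (-j ^ 2)`
which contains, for every `k`, the scaled grid `2 ^ (-4 ^ (k + 1)) · {1, …, 2 ^ k} / 2 ^ k`.

* `H` is non-confined: conjugating by suitable powers of `x₀` spreads the grids densely.
* If the ball of radius `n` about the coset `H g`, `|g| ≤ K n`, is a copy of the Cayley ball, then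
  the roughly `n / a` elements `x₀ ^ i b x₀ ^ (-i)` of length at most `n`, whose supports are
  disjoint, all move a point of `g⁻¹ (pp j)`.  So `g` maps about `n / a` points of `[1/2, 1)` into
  the sequence, while `g` contracts by at most `2 ^ (-c K n)`, so there are only about
  `(c K n) ^ (1 / 2)` points of the sequence available: a contradiction for large `n`.
-/

namespace Pool.Agent.Results.MP_f4dda6_al.FarBalls

/-! ### Thompson's group `F` -/

/-- dyadic rationals -/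
def Dyadic' (x : ℝ) : Prop := ∃ (m : ℤ) (n : ℕ), x = m / 2 ^ n

/-- The map `f` is piecewise linear with finitely many breakpoints, all of them dyadic rationals,
and all slopes are integer powers of two. -/
def PLD (f : ℝ ≃o ℝ) : Prop :=
  ∃ B : Finset ℝ, (∀ b ∈ B, Dyadic' b) ∧ ∀ a c : ℝ, a < c → (∀ b ∈ B, ¬ (a < b ∧ b < c)) →
    ∃ k : ℤ, ∀ x, a ≤ x → x ≤ c → f x = f a + 2 ^ k * (x - a)

theorem dy_int (m : ℤ) : Dyadic' m := ⟨m, 0, by simp⟩
theorem dy_zero : Dyadic' 0 := ⟨0, 0, by simp⟩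
theorem dy_one : Dyadic' 1 := ⟨1, 0, by simp⟩

theorem Dyadic'.add {x y : ℝ} (hx : Dyadic' x) (hy : Dyadic' y) : Dyadic' (x + y) := by
  obtain ⟨m, n, rfl⟩ := hx
  obtain ⟨m', n', rfl⟩ := hy
  refine ⟨m * 2 ^ n' + m' * 2 ^ n, n + n', ?_⟩
  push_cast
  rw [pow_add]
  field_simp

theorem Dyadic'.neg {x : ℝ} (hx : Dyadic' x) : Dyadic' (-x) := by
  obtain ⟨m, n, rfl⟩ := hx
  exact ⟨-m, n, by push_cast; ring⟩

theorem Dyadic'.sub {x y : ℝ} (hx : Dyadic' x) (hy : Dyadic' y) : Dyadic' (x - y) := by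
  rw [sub_eq_add_neg]
  exact hx.add hy.neg

theorem Dyadic'.mul {x y : ℝ} (hx : Dyadic' x) (hy : Dyadic' y) : Dyadic' (x * y) := by
  obtain ⟨m, n, rfl⟩ := hx
  obtain ⟨m', n', rfl⟩ := hy
  refine ⟨m * m', n + n', ?_⟩
  push_cast
  rw [pow_add]
  field_simp

theorem dy_zpow (k : ℤ) : Dyadic' ((2 : ℝ) ^ k) := by
  obtain ⟨n, rfl | rfl⟩ := k.eq_nat_or_neg
  · exact ⟨2 ^ n, 0, by simp⟩
  · exact ⟨1, n, by simp [zpow_neg]⟩

theorem dyadic_step {k : ℤ} {x a fx fa : ℝ} (ha : Dyadic' a) (hfa : Dyadic' fa)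
    (h : fx = fa + 2 ^ k * (x - a)) : Dyadic' x ↔ Dyadic' fx := by
  constructor
  · intro hx
    rw [h]
    exact hfa.add ((dy_zpow k).mul (hx.sub ha))
  · intro hfx
    have : x = a + 2 ^ (-k) * (fx - fa) := by
      rw [h, zpow_neg]
      have : (2 : ℝ) ^ k ≠ 0 := zpow_ne_zero _ two_ne_zero
      field_simp
      ring
    rw [this]
    exact ha.add ((dy_zpow _).mul (hfx.sub hfa))

/-- elements of `F` preserve dyadic rationals -/
theorem dyadic_iff {f : ℝ ≃o ℝ} (h0 : ∀ x ≤ 0, f x = x) (h : PLD f) (x : ℝ) :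
    Dyadic' x ↔ Dyadic' (f x) := by
  obtain ⟨B, hB, hf⟩ := h
  rcases le_or_gt x 0 with hx | hx
  · rw [h0 x hx]
  · -- induction on the number of breakpoints below `x`
    have key : ∀ n : ℕ, ∀ x : ℝ, 0 < x → (B.filter (fun b => 0 < b ∧ b < x)).card ≤ n →
        (Dyadic' x ↔ Dyadic' (f x)) := by
      intro n
      induction n with
      | zero =>
        intro x hx hcard
        have hno : ∀ b ∈ B, ¬ (0 < b ∧ b < x) := by
          intro b hb hbx
          have h1 : b ∈ B.filter (fun b => 0 < b ∧ b < x) := Finset.mem_filter.2 ⟨hb, hbx⟩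
          rw [Finset.card_eq_zero.1 (Nat.le_zero.1 hcard)] at h1
          exact absurd h1 (Finset.notMem_empty _)
        obtain ⟨k, hk⟩ := hf 0 x hx hno
        refine dyadic_step dy_zero ?_ (hk x hx.le le_rfl)
        rw [h0 0 le_rfl]
        exact dy_zero
      | succ n ih =>
        intro x hx hcard
        by_cases hne : (B.filter (fun b => 0 < b ∧ b < x)).Nonempty
        · obtain ⟨b, hb, hmax⟩ := Finset.exists_max_image _ id hne
          obtain ⟨hbB, hb0, hbx⟩ := Finset.mem_filter.1 hb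
          have hno : ∀ b' ∈ B, ¬ (b < b' ∧ b' < x) := by
            intro b' hb' hbb
            have h1 := hmax b' (Finset.mem_filter.2 ⟨hb', hb0.trans hbb.1, hbb.2⟩)
            exact absurd hbb.1 (not_lt.2 h1)
          obtain ⟨k, hk⟩ := hf b x hbx hno
          have hlt : (B.filter (fun b' => 0 < b' ∧ b' < b)).card ≤ n := by
            have h2 : B.filter (fun b' => 0 < b' ∧ b' < b) ⊂ B.filter (fun b => 0 < b ∧ b < x) := by
              refine Finset.ssubset_iff_subset_ne.2 ⟨?_, ?_⟩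
              · intro y hy
                obtain ⟨h3, h4, h5⟩ := Finset.mem_filter.1 hy
                exact Finset.mem_filter.2 ⟨h3, h4, h5.trans hbx⟩
              · intro heq
                rw [← heq] at hb
                exact absurd (Finset.mem_filter.1 hb).2.2 (lt_irrefl _)
            have h3 := Finset.card_lt_card h2
            omega
          exact dyadic_step (hB b hbB) ((ih b hb0 hlt).1 (hB b hbB)) (hk x hbx.le le_rfl)
        · rw [Finset.not_nonempty_iff_eq_empty] at hne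
          exact ih x hx (by rw [hne]; simp)
    exact key _ x hx le_rfl

/-- Thompson's group `F`: the orientation preserving piecewise linear homeomorphisms of the unit
interval (extended by the identity to the real line) with finitely many breakpoints, all at
dyadic rationals, and all slopes integer powers of two. -/
def F : Subgroup (ℝ ≃o ℝ) where
  carrier := {f | (∀ x ≤ 0, f x = x) ∧ (∀ x, 1 ≤ x → f x = x) ∧ PLD f}
  one_mem' := ⟨fun _ _ => rfl, fun _ _ => rfl, ∅, by simp, fun a c _ _ =>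
    ⟨0, fun x _ _ => by
      change x = a + 2 ^ (0 : ℤ) * (x - a)
      simp⟩⟩
  mul_mem' := by
    classical
    rintro f g ⟨hf0, hf1, hf⟩ ⟨hg0, hg1, hg⟩
    refine ⟨fun x hx => ?_, fun x hx => ?_, ?_⟩
    · rw [RelIso.mul_apply, hg0 x hx, hf0 x hx]
    · rw [RelIso.mul_apply, hg1 x hx, hf1 x hx]
    · have hgd := dyadic_iff hg0 hg
      obtain ⟨B, hB, hf⟩ := hf
      obtain ⟨D, hD, hg⟩ := hg
      refine ⟨D ∪ B.image (fun b => g⁻¹ b), ?_, ?_⟩
      · intro b hb
        rcases Finset.mem_union.1 hb with hb | hb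
        · exact hD b hb
        · obtain ⟨b', hb', rfl⟩ := Finset.mem_image.1 hb
          rw [hgd, RelIso.apply_inv_self]
          exact hB b' hb'
      · intro a c hac hno
        obtain ⟨k, hk⟩ := hg a c hac (fun b hb => hno b (Finset.mem_union_left _ hb))
        have hgac : g a < g c := g.strictMono hac
        obtain ⟨l, hl⟩ := hf (g a) (g c) hgac (by
          intro b hb hbb
          refine hno (g⁻¹ b) (Finset.mem_union_right _ (Finset.mem_image_of_mem _ hb)) ⟨?_, ?_⟩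
          · rw [← g.lt_iff_lt, RelIso.apply_inv_self]
            exact hbb.1
          · rw [← g.lt_iff_lt, RelIso.apply_inv_self]
            exact hbb.2)
        refine ⟨l + k, fun x hax hxc => ?_⟩
        rw [RelIso.mul_apply, RelIso.mul_apply, hl (g x) (g.monotone hax) (g.monotone hxc),
          hk x hax hxc, zpow_add₀ two_ne_zero]
        ring
  inv_mem' := by
    classical
    rintro f ⟨hf0, hf1, hf⟩
    refine ⟨fun x hx => ?_, fun x hx => ?_, ?_⟩
    · have h := hf0 x hx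
      apply f.injective
      rw [RelIso.apply_inv_self, h]
    · have h := hf1 x hx
      apply f.injective
      rw [RelIso.apply_inv_self, h]
    · have hfd := dyadic_iff hf0 hf
      obtain ⟨B, hB, hf⟩ := hf
      refine ⟨B.image f, ?_, ?_⟩
      · intro b hb
        obtain ⟨b', hb', rfl⟩ := Finset.mem_image.1 hb
        exact (hfd b').1 (hB b' hb')
      · intro a c hac hno
        have hac' : f⁻¹ a < f⁻¹ c := by
          rw [← f.lt_iff_lt, RelIso.apply_inv_self, RelIso.apply_inv_self]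
          exact hac
        obtain ⟨k, hk⟩ := hf (f⁻¹ a) (f⁻¹ c) hac' (by
          intro b hb hbb
          refine hno (f b) (Finset.mem_image_of_mem _ hb) ⟨?_, ?_⟩
          · have := f.strictMono hbb.1
            rwa [RelIso.apply_inv_self] at this
          · have := f.strictMono hbb.2
            rwa [RelIso.apply_inv_self] at this)
        refine ⟨-k, fun x hax hxc => ?_⟩
        have h1 : f⁻¹ a ≤ f⁻¹ x := by
          rw [← f.le_iff_le, RelIso.apply_inv_self, RelIso.apply_inv_self]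
          exact hax
        have h2 : f⁻¹ x ≤ f⁻¹ c := by
          rw [← f.le_iff_le, RelIso.apply_inv_self, RelIso.apply_inv_self]
          exact hxc
        have h3 := hk (f⁻¹ x) h1 h2
        rw [RelIso.apply_inv_self, RelIso.apply_inv_self] at h3
        have : (2 : ℝ) ^ k ≠ 0 := zpow_ne_zero _ two_ne_zero
        rw [zpow_neg]
        field_simp
        linarith

/-! ### The elements used -/

/-- the function underlying `x₀` -/
noncomputable def x0f (x : ℝ) : ℝ :=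
  if x ≤ 0 then x else if x ≤ 1 / 4 then 2 * x else if x ≤ 1 / 2 then x + 1 / 4
    else if x ≤ 1 then (x + 1) / 2 else x

/-- its inverse -/
noncomputable def x0g (x : ℝ) : ℝ :=
  if x ≤ 0 then x else if x ≤ 1 / 2 then x / 2 else if x ≤ 3 / 4 then x - 1 / 4
    else if x ≤ 1 then 2 * x - 1 else x

/-- The generator `x₀`. -/
noncomputable def x0 : ℝ ≃o ℝ where
  toFun := x0f
  invFun := x0g
  left_inv x := by
    simp only [x0f, x0g]
    split_ifs <;> linarith
  right_inv x := by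
    simp only [x0f, x0g]
    split_ifs <;> linarith
  map_rel_iff' := by
    intro a b
    simp only [Equiv.coe_fn_mk, x0f]
    constructor
    · intro h
      split_ifs at h <;> linarith
    · intro h
      split_ifs <;> linarith

theorem x0_nonpos {x : ℝ} (h : x ≤ 0) : x0 x = x := if_pos h

theorem x0_quarter {x : ℝ} (h0 : 0 ≤ x) (h1 : x ≤ 1 / 4) : x0 x = 2 * x := by
  change x0f x = _
  rw [x0f]
  split_ifs <;> linarith

theorem x0_half {x : ℝ} (h0 : 1 / 4 ≤ x) (h1 : x ≤ 1 / 2) : x0 x = x + 1 / 4 := by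
  change x0f x = _
  rw [x0f]
  split_ifs <;> linarith

theorem x0_one {x : ℝ} (h0 : 1 / 2 ≤ x) (h1 : x ≤ 1) : x0 x = (x + 1) / 2 := by
  change x0f x = _
  rw [x0f]
  split_ifs <;> linarith

theorem x0_ge {x : ℝ} (h0 : 1 ≤ x) : x0 x = x := by
  change x0f x = _
  rw [x0f]
  split_ifs <;> linarith

theorem x0_pld_aux : ∀ a c : ℝ, a < c →
    (∀ b ∈ ({0, 1 / 4, 1 / 2, 1} : Finset ℝ), ¬ (a < b ∧ b < c)) →
    ∃ k : ℤ, ∀ x, a ≤ x → x ≤ c → x0 x = x0 a + 2 ^ k * (x - a) := by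
  intro a c hac hno
  have n0 := hno 0 (by simp)
  have n1 := hno (1 / 4) (by simp)
  have n2 := hno (1 / 2) (by simp)
  have n3 := hno 1 (by simp)
  rw [not_and, not_lt] at n0 n1 n2 n3
  by_cases c0 : c ≤ 0
  · refine ⟨0, fun x h1 h2 => ?_⟩
    rw [x0_nonpos (h2.trans c0), x0_nonpos (hac.le.trans c0)]
    simp
  have a0 : 0 ≤ a := by
    by_contra h
    exact c0 (n0 (not_le.1 h))
  by_cases c1 : c ≤ 1 / 4
  · refine ⟨1, fun x h1 h2 => ?_⟩
    rw [x0_quarter (a0.trans h1) (h2.trans c1), x0_quarter a0 (hac.le.trans c1)]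
    norm_num
    ring
  have a1 : 1 / 4 ≤ a := by
    by_contra h
    exact c1 (n1 (not_le.1 h))
  by_cases c2 : c ≤ 1 / 2
  · refine ⟨0, fun x h1 h2 => ?_⟩
    rw [x0_half (a1.trans h1) (h2.trans c2), x0_half a1 (hac.le.trans c2)]
    norm_num
    ring
  have a2 : 1 / 2 ≤ a := by
    by_contra h
    exact c2 (n2 (not_le.1 h))
  by_cases c3 : c ≤ 1
  · refine ⟨-1, fun x h1 h2 => ?_⟩
    rw [x0_one (a2.trans h1) (h2.trans c3), x0_one a2 (hac.le.trans c3)]
    norm_num
    ring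
  have a3 : 1 ≤ a := by
    by_contra h
    exact c3 (n3 (not_le.1 h))
  refine ⟨0, fun x h1 h2 => ?_⟩
  rw [x0_ge (a3.trans h1), x0_ge a3]
  simp

theorem x0_bp : ∀ b ∈ ({0, 1 / 4, 1 / 2, 1} : Finset ℝ), Dyadic' b := by
  intro b hb
  simp only [Finset.mem_insert, Finset.mem_singleton] at hb
  rcases hb with rfl | rfl | rfl | rfl
  · exact dy_zero
  · exact ⟨1, 2, by norm_num⟩
  · exact ⟨1, 1, by norm_num⟩
  · exact dy_one

theorem x0_pld : PLD x0 := ⟨_, x0_bp, x0_pld_aux⟩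

/-- The generator `x₀` as an element of `F`. -/
noncomputable def X : F := ⟨x0, fun _ h => x0_nonpos h, fun _ h => x0_ge h, x0_pld⟩

/-- the affine map sending `[1/2, 3/4]` to `[0, 1]` -/
noncomputable def Aff : ℝ ≃o ℝ where
  toFun x := 4 * x - 2
  invFun y := (y + 2) / 4
  left_inv x := by simp
  right_inv x := by ring
  map_rel_iff' := by
    intro a b
    simp only [Equiv.coe_fn_mk]
    constructor <;> intro h <;> linarith

theorem Aff_apply (x : ℝ) : Aff x = 4 * x - 2 := rfl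
theorem Aff_inv_apply (x : ℝ) : Aff⁻¹ x = (x + 2) / 4 := rfl

/-- a copy of `x₀` supported in `[1/2, 3/4]` -/
noncomputable def b0 : ℝ ≃o ℝ := Aff⁻¹ * x0 * Aff

theorem b0_apply (x : ℝ) : b0 x = (x0 (4 * x - 2) + 2) / 4 := rfl

theorem b0_pld : PLD b0 := by
  classical
  refine ⟨({0, 1 / 4, 1 / 2, 1} : Finset ℝ).image (fun y => (y + 2) / 4), ?_, ?_⟩
  · intro b hb
    obtain ⟨y, hy, rfl⟩ := Finset.mem_image.1 hb
    have h1 := ((x0_bp y hy).add (dy_int 2)).mul (⟨1, 2, by norm_num⟩ : Dyadic' (1 / 4))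
    convert h1 using 1
    push_cast
    ring
  · intro a c hac hno
    obtain ⟨k, hk⟩ := x0_pld_aux (4 * a - 2) (4 * c - 2) (by linarith) (by
      intro b hb hbb
      refine hno ((b + 2) / 4) (Finset.mem_image_of_mem _ hb) ⟨?_, ?_⟩
      · linarith [hbb.1]
      · linarith [hbb.2])
    refine ⟨k, fun x h1 h2 => ?_⟩
    rw [b0_apply, b0_apply, hk (4 * x - 2) (by linarith) (by linarith)]
    ring

theorem b0_supp (x : ℝ) (h : b0 x ≠ x) : 1 / 2 < x ∧ x < 3 / 4 := by
  constructor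
  · by_contra hx
    apply h
    rw [b0_apply, x0_nonpos (by linarith)]
    ring
  · by_contra hx
    apply h
    rw [b0_apply, x0_ge (by linarith)]
    ring

/-- a nontrivial element of `F` supported in `[1/2, 3/4]` -/
noncomputable def Bb : F := ⟨b0, fun x h => by
    by_contra hne
    linarith [(b0_supp x hne).1], fun x h => by
    by_contra hne
    linarith [(b0_supp x hne).2], b0_pld⟩

theorem Bb_ne : Bb ≠ 1 := by
  intro h
  have h1 : b0 = 1 := congrArg Subtype.val h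
  have h2 : b0 (9 / 16) = 9 / 16 := by rw [h1]; rfl
  rw [b0_apply, x0_quarter (by norm_num) (by norm_num)] at h2
  norm_num at h2

theorem F_coe_mul (f g : F) (x : ℝ) : ((f * g : F) : ℝ ≃o ℝ) x = (f : ℝ ≃o ℝ) ((g : ℝ ≃o ℝ) x) := rfl

theorem F_inv_self (f : F) (x : ℝ) : ((f⁻¹ : F) : ℝ ≃o ℝ) ((f : ℝ ≃o ℝ) x) = x :=
  RelIso.inv_apply_self _ _

theorem F_self_inv (f : F) (x : ℝ) : (f : ℝ ≃o ℝ) (((f⁻¹ : F) : ℝ ≃o ℝ) x) = x :=
  RelIso.apply_inv_self _ _

/-- the orbit of `1/2` under `x₀` -/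
noncomputable def yy (i : ℕ) : ℝ := ((X ^ i : F) : ℝ ≃o ℝ) (1 / 2)

theorem yy_eq (i : ℕ) : yy i = 1 - (1 / 2) ^ (i + 1) := by
  induction i with
  | zero => simp [yy]; norm_num
  | succ i ih =>
    have h1 : yy (i + 1) = x0 (yy i) := by
      rw [yy, pow_succ', F_coe_mul]; rfl
    have h2 : (1 / 2 : ℝ) ^ (i + 1) ≤ 1 / 2 := by
      rw [pow_succ]
      have : (1 / 2 : ℝ) ^ i ≤ 1 := pow_le_one₀ (by norm_num) (by norm_num)
      linarith
    have h3 : (0 : ℝ) < (1 / 2 : ℝ) ^ (i + 1) := by positivity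
    rw [h1, x0_one (by linarith) (by linarith), ih, pow_succ]
    ring

theorem yy_strictMono : StrictMono yy := by
  refine strictMono_nat_of_lt_succ fun i => ?_
  rw [yy_eq, yy_eq, pow_succ _ (i + 1)]
  have : (0 : ℝ) < (1 / 2 : ℝ) ^ (i + 1) := by positivity
  linarith

theorem half_le_yy (i : ℕ) : 1 / 2 ≤ yy i := by
  have h := yy_strictMono.monotone (Nat.zero_le i)
  have h0 : yy 0 = 1 / 2 := by rw [yy_eq]; norm_num
  rwa [h0] at h

theorem w_supp (i : ℕ) (t : ℝ) (h : ((X ^ i * Bb * (X ^ i)⁻¹ : F) : ℝ ≃o ℝ) t ≠ t) :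
    yy i < t ∧ t < yy (i + 1) := by
  set u := (((X ^ i)⁻¹ : F) : ℝ ≃o ℝ) t with hu
  have htu : t = ((X ^ i : F) : ℝ ≃o ℝ) u := (F_self_inv _ _).symm
  have h1 : b0 u ≠ u := by
    intro hb
    apply h
    rw [F_coe_mul, F_coe_mul, ← hu]
    change ((X ^ i : F) : ℝ ≃o ℝ) (b0 u) = t
    rw [hb, htu]
  obtain ⟨h2, h3⟩ := b0_supp u h1
  constructor
  · rw [htu, yy]
    exact ((X ^ i : F) : ℝ ≃o ℝ).strictMono h2
  · have h4 : yy (i + 1) = ((X ^ i : F) : ℝ ≃o ℝ) (3 / 4) := by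
      rw [yy, pow_succ, F_coe_mul]
      congr 1
      change x0 (1 / 2) = 3 / 4
      rw [x0_one (by norm_num) (by norm_num)]
      norm_num
    rw [htu, h4]
    exact ((X ^ i : F) : ℝ ≃o ℝ).strictMono h3

theorem X_pow_small (N : ℕ) : ∀ y : ℝ, 0 ≤ y → y ≤ (1 / 2) ^ (N + 1) →
    ((X ^ N : F) : ℝ ≃o ℝ) y = 2 ^ N * y := by
  induction N with
  | zero => intro y _ _; simp
  | succ N ih =>
    intro y h0 h1
    have h2 : (1 / 2 : ℝ) ^ (N + 1 + 1) = (1 / 2) ^ (N + 1) / 2 := by rw [pow_succ]; ring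
    have h3 : (1 / 2 : ℝ) ^ (N + 1) ≤ 1 / 2 := by
      rw [pow_succ]
      have : (1 / 2 : ℝ) ^ N ≤ 1 := pow_le_one₀ (by norm_num) (by norm_num)
      linarith
    rw [pow_succ, F_coe_mul]
    have h4 : (X : ℝ ≃o ℝ) y = 2 * y := x0_quarter h0 (by linarith)
    rw [h4, ih (2 * y) (by linarith) (by linarith), pow_succ]
    ring

/-- linear lower bound at zero -/
theorem lower_bound (f : F) : ∃ c : ℕ, ∀ x : ℝ, 0 ≤ x → x ≤ 1 →
    (1 / 2) ^ c * x ≤ (f : ℝ ≃o ℝ) x := by
  classical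
  obtain ⟨f, hf0, hf1, B, hB, hf⟩ := f
  change ∃ c : ℕ, ∀ x : ℝ, 0 ≤ x → x ≤ 1 → (1 / 2) ^ c * x ≤ f x
  have h0 : f 0 = 0 := hf0 0 le_rfl
  -- smallest positive breakpoint
  let B' : Finset ℝ := insert 1 (B.filter (fun b => 0 < b))
  have hne : B'.Nonempty := ⟨1, Finset.mem_insert_self _ _⟩
  obtain ⟨d, hd, hmin⟩ := Finset.exists_min_image B' id hne
  have hd0 : 0 < d := by
    rcases Finset.mem_insert.1 hd with rfl | h
    · norm_num
    · exact (Finset.mem_filter.1 h).2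
  obtain ⟨k, hk⟩ := hf 0 d hd0 (by
    intro b hb hbb
    have := hmin b (Finset.mem_insert_of_mem (Finset.mem_filter.2 ⟨hb, hbb.1⟩))
    exact absurd hbb.2 (not_lt.2 this))
  have hfd : 0 < f d := by
    have := f.strictMono hd0
    rwa [h0] at this
  have hk0 : (0 : ℝ) < 2 ^ k := zpow_pos two_pos k
  obtain ⟨c1, hc1⟩ := exists_pow_lt_of_lt_one hk0 (by norm_num : (1 / 2 : ℝ) < 1)
  obtain ⟨c2, hc2⟩ := exists_pow_lt_of_lt_one hfd (by norm_num : (1 / 2 : ℝ) < 1)
  refine ⟨c1 + c2, fun x hx0 hx1 => ?_⟩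
  have hp1 : (0 : ℝ) < (1 / 2) ^ c1 := by positivity
  have hp2 : (0 : ℝ) < (1 / 2) ^ c2 := by positivity
  have hq1 : (1 / 2 : ℝ) ^ c1 ≤ 1 := pow_le_one₀ (by norm_num) (by norm_num)
  have hq2 : (1 / 2 : ℝ) ^ c2 ≤ 1 := pow_le_one₀ (by norm_num) (by norm_num)
  rcases le_or_gt x d with hxd | hxd
  · rw [hk x hx0 hxd, h0, sub_zero, zero_add]
    refine mul_le_mul_of_nonneg_right ?_ hx0
    rw [pow_add]
    nlinarith
  · have h1 : f d ≤ f x := f.monotone hxd.le
    have h2 : (1 / 2 : ℝ) ^ (c1 + c2) * x ≤ (1 / 2) ^ c2 := by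
      rw [pow_add]
      nlinarith [mul_pos hp1 hp2]
    linarith

/-! ### Schreier graphs -/

section schreier

variable {G : Type} [Group G]

/-- the right coset `H g` -/
def coset (H : Subgroup G) (g : G) : Set G := {x | ∃ h ∈ H, x = h * g}

/-- the right translate `A g` of a set `A`; for a right coset `A` and a generator `s` there is an
edge from `A` to `step A s` labelled `s` in the Schreier graph -/
def step (A : Set G) (g : G) : Set G := (fun x => x * g) '' A

/-- all letters of `w` are in `S` or inverses of elements of `S` -/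
def IsWord (S : Set G) (w : List G) : Prop := ∀ s ∈ w, s ∈ S ∨ s⁻¹ ∈ S

/-- the ball of radius `n` about the vertex `v` of a Schreier graph (orientation ignored) -/
def SBall (S : Set G) (v : Set G) (n : ℕ) : Set (Set G) :=
  {u | ∃ w, IsWord S w ∧ w.length ≤ n ∧ u = step v w.prod}

/-- the ball of radius `n` about the identity in the Cayley graph -/
def CBall (S : Set G) (n : ℕ) : Set G :=
  {g | ∃ w, IsWord S w ∧ w.length ≤ n ∧ g = w.prod}

/-- The ball of radius `n` about `v` is isomorphic, as a rooted labelled graph, to the ball of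
radius `n` about the identity in the Cayley graph. -/
def BallIso (S : Set G) (v : Set G) (n : ℕ) : Prop :=
  ∃ φ : G → Set G, φ 1 = v ∧ Set.BijOn φ (CBall S n) (SBall S v n) ∧
    ∀ x ∈ CBall S n, ∀ y ∈ CBall S n, ∀ s ∈ S, (y = x * s ↔ φ y = step (φ x) s)

/-- The ball of radius `R` about the root of the Schreier graph of `H` contains a copy of the ball
of radius `n` of the Cayley graph. -/
def HasCopy (S : Set G) (H : Subgroup G) (R n : ℕ) : Prop :=
  ∃ v : Set G, (∃ g, v = coset H g) ∧ SBall S v n ⊆ SBall S (coset H 1) R ∧ BallIso S v n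

/-- `H` is non-confined: no finite set of nontrivial elements meets every conjugate of `H`. -/
def NonConfined (H : Subgroup G) : Prop :=
  ∀ P : Set G, P.Finite → (1 : G) ∉ P → ∃ g : G, ∀ h ∈ H, g * h * g⁻¹ ∉ P

theorem step_step (A : Set G) (g h : G) : step (step A g) h = step A (g * h) := by
  rw [step, step, step, Set.image_image]
  simp only [mul_assoc]

theorem step_one (A : Set G) : step A 1 = A := by
  rw [step]
  simp

theorem step_coset (H : Subgroup G) (g k : G) : step (coset H g) k = coset H (g * k) := by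
  ext x
  constructor
  · rintro ⟨_, ⟨h, hh, rfl⟩, rfl⟩
    exact ⟨h, hh, by simp only [mul_assoc]⟩
  · rintro ⟨h, hh, rfl⟩
    exact ⟨h * g, ⟨h, hh, rfl⟩, by simp only [mul_assoc]⟩

theorem coset_eq (H : Subgroup G) (g k : G) (h : k * g⁻¹ ∈ H) : coset H g = coset H k := by
  ext x
  constructor
  · rintro ⟨a, ha, rfl⟩
    refine ⟨a * (k * g⁻¹)⁻¹, H.mul_mem ha (H.inv_mem h), by group⟩
  · rintro ⟨a, ha, rfl⟩
    refine ⟨a * (k * g⁻¹), H.mul_mem ha h, by group⟩

theorem one_mem_CBall (S : Set G) (n : ℕ) : (1 : G) ∈ CBall S n :=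
  ⟨[], fun _ h => absurd h (List.not_mem_nil), Nat.zero_le _, rfl⟩

/-- a ball isomorphism is given by translation -/
theorem ballIso_apply {S : Set G} {v : Set G} {n : ℕ} {φ : G → Set G} (h1 : φ 1 = v)
    (h3 : ∀ x ∈ CBall S n, ∀ y ∈ CBall S n, ∀ s ∈ S, (y = x * s ↔ φ y = step (φ x) s)) :
    ∀ w : List G, IsWord S w → w.length ≤ n → φ w.prod = step v w.prod := by
  intro w
  induction w using List.reverseRecOn with
  | nil => intro _ _; rw [List.prod_nil, step_one, h1]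
  | append_singleton w s ih =>
    intro hw hn
    have hw' : IsWord S w := fun t ht => hw t (List.mem_append_left _ ht)
    have hn' : w.length ≤ n := by
      rw [List.length_append, List.length_singleton] at hn
      omega
    have ih' := ih hw' hn'
    have hp : (w ++ [s]).prod = w.prod * s := by simp
    have m1 : w.prod ∈ CBall S n := ⟨w, hw', hn', rfl⟩
    have m2 : (w ++ [s]).prod ∈ CBall S n := ⟨w ++ [s], hw, hn, rfl⟩
    rw [hp] at m2 ⊢
    rcases hw s (List.mem_append_right _ (List.mem_singleton_self s)) with hs | hs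
    · have := (h3 _ m1 _ m2 s hs).1 rfl
      rw [this, ih', step_step]
    · have := (h3 _ m2 _ m1 s⁻¹ hs).1 (by group)
      rw [ih'] at this
      have h4 := congrArg (fun A => step A s) this
      simp only [step_step, inv_mul_cancel, step_one] at h4
      exact h4.symm

/-- consequence of containing a copy of a ball -/
theorem hasCopy_imp {S : Set G} {H : Subgroup G} {R n : ℕ} (h : HasCopy S H R n) :
    ∃ w0 : List G, IsWord S w0 ∧ w0.length ≤ R ∧ ∀ w : List G, IsWord S w → w.length ≤ n →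
      w.prod ≠ 1 → w0.prod * w.prod * w0.prod⁻¹ ∉ H := by
  obtain ⟨v, -, hsub, φ, h1, h2, h3⟩ := h
  have hv : v ∈ SBall S v n :=
    ⟨[], fun _ h => absurd h (List.not_mem_nil), Nat.zero_le _, by rw [List.prod_nil, step_one]⟩
  obtain ⟨w0, hw0, hl0, hv0⟩ := hsub hv
  refine ⟨w0, hw0, hl0, fun w hw hl hne hmem => ?_⟩
  have e1 : φ w.prod = step v w.prod := ballIso_apply h1 h3 w hw hl
  have e2 : step v w.prod = v := by
    rw [hv0, step_coset, step_coset, one_mul]
    symm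
    apply coset_eq
    exact hmem
  rw [e2, ← h1] at e1
  exact hne (h2.injOn ⟨w, hw, hl, rfl⟩ (one_mem_CBall S n) e1)

theorem isWord_append {S : Set G} {u w : List G} (hu : IsWord S u) (hw : IsWord S w) :
    IsWord S (u ++ w) := by
  intro s hs
  rcases List.mem_append.1 hs with h | h
  · exact hu s h
  · exact hw s h

theorem exists_word {S : Set G} (hS : Subgroup.closure S = ⊤) (g : G) :
    ∃ w : List G, IsWord S w ∧ w.prod = g := by
  have hg : g ∈ Subgroup.closure S := by rw [hS]; exact Subgroup.mem_top g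
  induction hg using Subgroup.closure_induction with
  | mem s hs => exact ⟨[s], fun t ht => by rw [List.mem_singleton.1 ht]; exact Or.inl hs, by simp⟩
  | one => exact ⟨[], fun _ h => absurd h (List.not_mem_nil), rfl⟩
  | mul a b _ _ iha ihb =>
    obtain ⟨u, hu, rfl⟩ := iha
    obtain ⟨w, hw, rfl⟩ := ihb
    exact ⟨u ++ w, isWord_append hu hw, by simp⟩
  | inv a _ iha =>
    obtain ⟨u, hu, rfl⟩ := iha
    refine ⟨(u.map (fun x => x⁻¹)).reverse, ?_, by rw [← List.prod_inv_reverse]⟩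
    intro s hs
    rw [List.mem_reverse, List.mem_map] at hs
    obtain ⟨t, ht, rfl⟩ := hs
    rw [inv_inv]
    exact (hu t ht).symm

theorem exists_pow_word {S : Set G} (hS : Subgroup.closure S = ⊤) (x b : G) :
    ∃ c : ℕ, 0 < c ∧ ∀ i : ℕ, ∃ w : List G, IsWord S w ∧ w.length ≤ c * (i + 1) ∧
      w.prod = x ^ i * b * (x ^ i)⁻¹ := by
  obtain ⟨u, hu, hux⟩ := exists_word hS x
  obtain ⟨u', hu', hux'⟩ := exists_word hS x⁻¹
  obtain ⟨w, hw, hwb⟩ := exists_word hS b
  refine ⟨u.length + u'.length + w.length + 1, Nat.succ_pos _, fun i => ?_⟩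
  induction i with
  | zero => exact ⟨w, hw, by omega, by simp [hwb]⟩
  | succ i ih =>
    obtain ⟨t, ht, htl, htp⟩ := ih
    refine ⟨u ++ t ++ u', isWord_append (isWord_append hu ht) hu', ?_, ?_⟩
    · rw [List.length_append, List.length_append]
      have : (u.length + u'.length + w.length + 1) * (i + 1 + 1) =
          (u.length + u'.length + w.length + 1) * (i + 1) +
            (u.length + u'.length + w.length + 1) := by ring
      omega
    · rw [List.prod_append, List.prod_append, htp, hux, hux', pow_succ']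
      group

end schreier

/-! ### The subgroup -/

/-- the points of the sparse sequence -/
noncomputable def pp (j : ℕ) : ℝ :=
  (((j + 2 - 2 ^ Nat.log 2 (j + 1) : ℕ) : ℝ) / 2 ^ Nat.log 2 (j + 1)) *
    (1 / 2) ^ (4 ^ (Nat.log 2 (j + 1) + 1))

theorem pp_pos (j : ℕ) : 0 < pp j := by
  have h1 : 2 ^ Nat.log 2 (j + 1) ≤ j + 1 := Nat.pow_log_le_self 2 (Nat.succ_ne_zero j)
  have h2 : 0 < j + 2 - 2 ^ Nat.log 2 (j + 1) := by omega
  have h3 : (0 : ℝ) < ((j + 2 - 2 ^ Nat.log 2 (j + 1) : ℕ) : ℝ) := by exact_mod_cast h2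
  rw [pp]
  positivity

theorem pp_le (j : ℕ) : pp j ≤ (1 / 2) ^ (j ^ 2) := by
  have h1 : 2 ^ Nat.log 2 (j + 1) ≤ j + 1 := Nat.pow_log_le_self 2 (Nat.succ_ne_zero j)
  have h2 : j + 1 < 2 ^ (Nat.log 2 (j + 1) + 1) := Nat.lt_pow_succ_log_self (by norm_num) _
  have h3 : j + 2 - 2 ^ Nat.log 2 (j + 1) ≤ 2 ^ Nat.log 2 (j + 1) := by
    rw [pow_succ] at h2
    omega
  have h4 : (((j + 2 - 2 ^ Nat.log 2 (j + 1) : ℕ) : ℝ) / 2 ^ Nat.log 2 (j + 1)) ≤ 1 := by
    rw [div_le_one (by positivity)]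
    exact_mod_cast h3
  have h5 : j ^ 2 ≤ 4 ^ (Nat.log 2 (j + 1) + 1) := by
    have : (4 : ℕ) ^ (Nat.log 2 (j + 1) + 1) = (2 ^ (Nat.log 2 (j + 1) + 1)) ^ 2 := by
      rw [← pow_mul, mul_comm, pow_mul]
      norm_num
    rw [this]
    exact Nat.pow_le_pow_left (by omega) 2
  rw [pp]
  have h6 : (0 : ℝ) < (1 / 2) ^ (4 ^ (Nat.log 2 (j + 1) + 1)) := by positivity
  have h7 : (1 / 2 : ℝ) ^ (4 ^ (Nat.log 2 (j + 1) + 1)) ≤ (1 / 2) ^ (j ^ 2) :=
    pow_le_pow_of_le_one (by norm_num) (by norm_num) h5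
  calc _ ≤ 1 * (1 / 2 : ℝ) ^ (4 ^ (Nat.log 2 (j + 1) + 1)) :=
        mul_le_mul_of_nonneg_right h4 h6.le
    _ ≤ _ := by rw [one_mul]; exact h7

theorem pp_grid (k i : ℕ) (hi : i < 2 ^ k) :
    pp (2 ^ k + i - 1) = ((i + 1 : ℕ) : ℝ) / 2 ^ k * (1 / 2) ^ (4 ^ (k + 1)) := by
  have h0 : 0 < 2 ^ k := by positivity
  have h1 : 2 ^ k + i - 1 + 1 = 2 ^ k + i := by omega
  have h2 : Nat.log 2 (2 ^ k + i) = k := by
    rw [Nat.log_eq_iff (Or.inr ⟨by norm_num, by omega⟩)]
    refine ⟨by omega, ?_⟩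
    rw [pow_succ]
    omega
  rw [pp, h1, h2]
  have h3 : 2 ^ k + i - 1 + 2 - 2 ^ k = i + 1 := by omega
  rw [h3]

/-- The subgroup `H`: the pointwise stabilizer of the sequence `pp`. -/
def HH : Subgroup F where
  carrier := {f | ∀ j, (f : ℝ ≃o ℝ) (pp j) = pp j}
  one_mem' := fun _ => rfl
  mul_mem' := by
    intro f g hf hg j
    rw [F_coe_mul, hg j, hf j]
  inv_mem' := by
    intro f hf j
    have := F_inv_self f (pp j)
    rw [hf j] at this
    exact this

theorem HH_nonConfined : NonConfined HH := by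
  classical
  intro P hP h1P
  -- moved points
  have hmov : ∀ q ∈ P, ∃ t : ℝ, (q : ℝ ≃o ℝ) t ≠ t := by
    intro q hq
    by_contra hcon
    push Not at hcon
    apply h1P
    have : q = 1 := Subtype.ext (RelIso.ext hcon)
    rwa [this] at hq
  choose! t ht using hmov
  have ht0 : ∀ q ∈ P, 0 < t q := by
    intro q hq
    by_contra hcon
    exact ht q hq (q.2.1 _ (not_lt.1 hcon))
  have ht1 : ∀ q ∈ P, t q < 1 := by
    intro q hq
    by_contra hcon
    exact ht q hq (q.2.2.1 _ (not_lt.1 hcon))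
  -- choose `l`
  have hl : ∃ l : ℕ, ∀ q ∈ P, t q < yy l := by
    have hex : ∀ q ∈ P, ∃ l : ℕ, t q < yy l := by
      intro q hq
      obtain ⟨l, hl⟩ := exists_pow_lt_of_lt_one (sub_pos.2 (ht1 q hq)) (by norm_num : (1 / 2 : ℝ) < 1)
      refine ⟨l, ?_⟩
      rw [yy_eq, pow_succ]
      have : (0 : ℝ) < (1 / 2) ^ l := by positivity
      linarith
    choose! l hl using hex
    obtain ⟨L, hL⟩ : ∃ L, ∀ q ∈ P, l q ≤ L := by
      obtain ⟨L, hL⟩ := (hP.image l).bddAbove
      exact ⟨L, fun q hq => hL ⟨q, hq, rfl⟩⟩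
    exact ⟨L, fun q hq => (hl q hq).trans_le (yy_strictMono.monotone (hL q hq))⟩
  obtain ⟨l, hl⟩ := hl
  let Y : ℝ ≃o ℝ := ((X ^ l : F) : ℝ ≃o ℝ)
  have hYc : Continuous Y := Y.continuous
  -- choose `ε`
  have hε : ∀ q ∈ P, ∃ ε : ℝ, 0 < ε ∧ ∀ z, |z - Y.symm (t q)| < ε →
      (q : ℝ ≃o ℝ) (Y z) ≠ Y z := by
    intro q hq
    have hopen : IsOpen {z : ℝ | (q : ℝ ≃o ℝ) (Y z) ≠ Y z} :=
      isOpen_ne_fun ((q : ℝ ≃o ℝ).continuous.comp hYc) hYc
    have hmem : Y.symm (t q) ∈ {z : ℝ | (q : ℝ ≃o ℝ) (Y z) ≠ Y z} := by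
      change (q : ℝ ≃o ℝ) (Y (Y.symm (t q))) ≠ Y (Y.symm (t q))
      rw [OrderIso.apply_symm_apply]
      exact ht q hq
    obtain ⟨ε, hε, hball⟩ := Metric.isOpen_iff.1 hopen _ hmem
    refine ⟨ε, hε, fun z hz => ?_⟩
    exact hball (by rw [Metric.mem_ball, Real.dist_eq]; exact hz)
  choose! ε hε0 hε using hε
  have hk : ∃ k : ℕ, ∀ q ∈ P, (1 / 2 : ℝ) ^ (k + 1) < ε q := by
    have hex : ∀ q ∈ P, ∃ k : ℕ, (1 / 2 : ℝ) ^ k < ε q := fun q hq =>
      exists_pow_lt_of_lt_one (hε0 q hq) (by norm_num)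
    choose! k hk using hex
    obtain ⟨L, hL⟩ : ∃ L, ∀ q ∈ P, k q ≤ L := by
      obtain ⟨L, hL⟩ := (hP.image k).bddAbove
      exact ⟨L, fun q hq => hL ⟨q, hq, rfl⟩⟩
    refine ⟨L, fun q hq => lt_of_le_of_lt ?_ (hk q hq)⟩
    exact pow_le_pow_of_le_one (by norm_num) (by norm_num) ((hL q hq).trans (Nat.le_succ L))
  obtain ⟨k, hk⟩ := hk
  refine ⟨X ^ l * X ^ (4 ^ (k + 1) - 1), fun h hh hP' => ?_⟩
  set q := X ^ l * X ^ (4 ^ (k + 1) - 1) * h * (X ^ l * X ^ (4 ^ (k + 1) - 1))⁻¹ with hq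
  -- the grid point
  set z := Y.symm (t q) with hz
  have hz0 : 0 < z := by
    have h1 : Y 0 = 0 := (X ^ l : F).2.1 0 le_rfl
    rw [hz, ← Y.lt_iff_lt, OrderIso.apply_symm_apply, h1]
    exact ht0 q hP'
  have hz1 : z < 1 / 2 := by
    rw [hz, ← Y.lt_iff_lt, OrderIso.apply_symm_apply]
    exact hl q hP'
  let i : ℕ := ⌊z * 2 ^ (k + 1)⌋₊
  have hpow : (0 : ℝ) < 2 ^ (k + 1) := by positivity
  have hi1 : (i : ℝ) ≤ z * 2 ^ (k + 1) := Nat.floor_le (by positivity)
  have hi2 : z * 2 ^ (k + 1) < i + 1 := Nat.lt_floor_add_one _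
  have hi : i < 2 ^ k := by
    have h1 : (i : ℝ) < 2 ^ k := by
      calc (i : ℝ) ≤ z * 2 ^ (k + 1) := hi1
        _ < 1 / 2 * 2 ^ (k + 1) := mul_lt_mul_of_pos_right hz1 hpow
        _ = 2 ^ k := by rw [pow_succ]; ring
    exact_mod_cast h1
  have hclose : |((i + 1 : ℕ) : ℝ) / 2 ^ (k + 1) - z| < ε q := by
    have h1 : ((i + 1 : ℕ) : ℝ) / 2 ^ (k + 1) - z = (i + 1 - z * 2 ^ (k + 1)) / 2 ^ (k + 1) := by
      push_cast
      field_simp
    rw [h1, abs_of_nonneg (div_nonneg (by linarith) hpow.le)]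
    refine lt_of_le_of_lt ?_ (hk q hP')
    rw [div_le_iff₀ hpow, one_div, inv_pow, inv_mul_cancel₀ hpow.ne']
    linarith
  have hmove := hε q hP' _ hclose
  apply hmove
  -- but `q` fixes that point
  have hN : 4 ^ (k + 1) - 1 + 1 = 4 ^ (k + 1) := Nat.sub_add_cancel (Nat.one_le_pow _ _ (by norm_num))
  have hpt : ((X ^ (4 ^ (k + 1) - 1) : F) : ℝ ≃o ℝ) (pp (2 ^ k + i - 1)) =
      ((i + 1 : ℕ) : ℝ) / 2 ^ (k + 1) := by
    rw [X_pow_small _ _ (pp_pos _).le, pp_grid k i hi]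
    · have h2 : (1 / 2 : ℝ) ^ (4 ^ (k + 1)) = (1 / 2) ^ (4 ^ (k + 1) - 1) * (1 / 2) := by
        rw [← pow_succ, hN]
      have h3 : (2 : ℝ) ^ (4 ^ (k + 1) - 1) * (1 / 2) ^ (4 ^ (k + 1) - 1) = 1 := by
        rw [← mul_pow]
        norm_num
      rw [h2, pow_succ]
      calc (2 : ℝ) ^ (4 ^ (k + 1) - 1) * (((i + 1 : ℕ) : ℝ) / 2 ^ k *
            ((1 / 2) ^ (4 ^ (k + 1) - 1) * (1 / 2)))
          = ((2 : ℝ) ^ (4 ^ (k + 1) - 1) * (1 / 2) ^ (4 ^ (k + 1) - 1)) *
            (((i + 1 : ℕ) : ℝ) / (2 ^ k * 2)) := by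
              field_simp
        _ = _ := by rw [h3, one_mul, pow_succ]
    · rw [pp_grid k i hi, hN]
      have h4 : ((i + 1 : ℕ) : ℝ) / 2 ^ k ≤ 1 := by
        rw [div_le_one (by positivity)]
        exact_mod_cast hi
      have h6 : (0 : ℝ) < (1 / 2) ^ (4 ^ (k + 1)) := by positivity
      calc _ ≤ 1 * (1 / 2 : ℝ) ^ (4 ^ (k + 1)) := mul_le_mul_of_nonneg_right h4 h6.le
        _ = _ := one_mul _
  rw [← hpt]
  change (q : ℝ ≃o ℝ) (((X ^ l : F) : ℝ ≃o ℝ) _) = ((X ^ l : F) : ℝ ≃o ℝ) _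
  rw [← F_coe_mul, ← F_coe_mul]
  have h5 : q * X ^ l * X ^ (4 ^ (k + 1) - 1) = X ^ l * X ^ (4 ^ (k + 1) - 1) * h := by
    rw [hq]
    group
  rw [h5, F_coe_mul, hh, F_coe_mul]

/-- lower bound for words -/
theorem word_bound {S : Set F} (hS : S.Finite) : ∃ c : ℕ, ∀ w : List F, IsWord S w →
    ∀ x : ℝ, 0 ≤ x → x ≤ 1 → (1 / 2) ^ (c * w.length) * x ≤ (w.prod : ℝ ≃o ℝ) x := by
  classical
  choose d hd using lower_bound
  obtain ⟨c, hc⟩ : ∃ c, ∀ s : F, s ∈ S ∨ s⁻¹ ∈ S → d s ≤ c := by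
    obtain ⟨c1, hc1⟩ := (hS.image d).bddAbove
    obtain ⟨c2, hc2⟩ := ((hS.image (fun s => s⁻¹)).image d).bddAbove
    refine ⟨max c1 c2, ?_⟩
    rintro s (hs | hs)
    · exact (hc1 ⟨s, hs, rfl⟩).trans (le_max_left _ _)
    · exact (hc2 ⟨s, ⟨s⁻¹, hs, inv_inv s⟩, rfl⟩).trans (le_max_right _ _)
  refine ⟨c, fun w => ?_⟩
  induction w with
  | nil => intro _ x _ _; simp
  | cons s w ih =>
    intro hw x hx0 hx1
    have ih' := ih (fun t ht => hw t (List.mem_cons_of_mem _ ht)) x hx0 hx1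
    have hwx0 : 0 ≤ (w.prod : ℝ ≃o ℝ) x := le_trans (by positivity) ih'
    have hwx1 : (w.prod : ℝ ≃o ℝ) x ≤ 1 := by
      have h1 := (w.prod : ℝ ≃o ℝ).monotone hx1
      rwa [w.prod.2.2.1 1 le_rfl] at h1
    have h2 := hd s _ hwx0 hwx1
    have h3 : (1 / 2 : ℝ) ^ c ≤ (1 / 2) ^ (d s) :=
      pow_le_pow_of_le_one (by norm_num) (by norm_num) (hc s (hw s (List.mem_cons_self ..)))
    have h4 : (((s :: w).prod : F) : ℝ ≃o ℝ) x = (s : ℝ ≃o ℝ) ((w.prod : ℝ ≃o ℝ) x) := by
      rw [List.prod_cons, F_coe_mul]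
    rw [h4, List.length_cons, mul_add, mul_one, pow_add]
    calc (1 / 2 : ℝ) ^ (c * w.length) * (1 / 2) ^ c * x
        = (1 / 2) ^ c * ((1 / 2 : ℝ) ^ (c * w.length) * x) := by ring
      _ ≤ (1 / 2) ^ c * (w.prod : ℝ ≃o ℝ) x := mul_le_mul_of_nonneg_left ih' (by positivity)
      _ ≤ (1 / 2) ^ (d s) * (w.prod : ℝ ≃o ℝ) x := mul_le_mul_of_nonneg_right h3 hwx0
      _ ≤ _ := h2

/-- **Theorem.** Thompson's group `F` has a non-confined subgroup `H` such that, for every finite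
generating set `S` and every `K`, for all but finitely many `n` the ball of radius `K n` about the
root of the Schreier graph of `H` contains no copy of the ball of radius `n` of the
Cayley graph of `F`. -/
theorem result : ∃ H : Subgroup F, NonConfined H ∧
    ∀ S : Set F, S.Finite → Subgroup.closure S = ⊤ →
      ∀ K : ℕ, ∃ N : ℕ, ∀ n : ℕ, N ≤ n → ¬ HasCopy S H (K * n) n := by
  classical
  refine ⟨HH, HH_nonConfined, fun S hSf hS K => ?_⟩
  obtain ⟨c, hc⟩ := word_bound hSf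
  obtain ⟨a, ha0, ha⟩ := exists_pow_word hS X Bb
  -- if a copy exists then `m ^ 2 ≤ c K n + 1` where `m = n / a`
  have key : ∀ n : ℕ, HasCopy S HH (K * n) n → ∀ m : ℕ, a * (m + 1) ≤ n →
      m ^ 2 ≤ c * (K * n) + 1 := by
    intro n hcopy m hm
    obtain ⟨w0, hw0, hl0, hw⟩ := hasCopy_imp hcopy
    have hj : ∀ i : ℕ, i ≤ m → ∃ j : ℕ, yy i < ((w0.prod⁻¹ : F) : ℝ ≃o ℝ) (pp j) ∧
        ((w0.prod⁻¹ : F) : ℝ ≃o ℝ) (pp j) < yy (i + 1) := by
      intro i hi
      obtain ⟨w, hww, hwl, hwp⟩ := ha i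
      have hlen : w.length ≤ n := by
        have : a * (i + 1) ≤ a * (m + 1) := Nat.mul_le_mul_left _ (by omega)
        omega
      have hne : w.prod ≠ 1 := by
        rw [hwp]
        intro h
        apply Bb_ne
        have : Bb = (X ^ i)⁻¹ * (X ^ i * Bb * (X ^ i)⁻¹) * X ^ i := by group
        rw [this, h]
        group
      have hnot := hw w hww hlen hne
      have : ∃ j, ((w0.prod * w.prod * w0.prod⁻¹ : F) : ℝ ≃o ℝ) (pp j) ≠ pp j := by
        by_contra hcon
        push Not at hcon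
        exact hnot hcon
      obtain ⟨j, hj⟩ := this
      refine ⟨j, ?_⟩
      apply w_supp
      rw [← hwp]
      intro h
      apply hj
      rw [F_coe_mul, F_coe_mul, h, F_self_inv]
    choose! j hj using hj
    -- injectivity
    have hinj : ∀ i i' : ℕ, i ≤ m → i' ≤ m → i < i' → j i ≠ j i' := by
      intro i i' hi hi' hlt heq
      have h1 := (hj i hi).2
      have h2 := (hj i' hi').1
      rw [← heq] at h2
      have h3 : yy (i + 1) ≤ yy i' := yy_strictMono.monotone hlt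
      linarith
    -- upper bound for `j i`
    have hup : ∀ i, i ≤ m → j i ^ 2 ≤ c * (K * n) + 1 := by
      intro i hi
      have h1 := (hj i hi).1
      have h2 : (1 / 2 : ℝ) ≤ ((w0.prod⁻¹ : F) : ℝ ≃o ℝ) (pp (j i)) := (half_le_yy i).trans h1.le
      have h3 := (w0.prod : ℝ ≃o ℝ).monotone h2
      rw [F_self_inv] at h3
      have h4 := hc w0 hw0 (1 / 2) (by norm_num) (by norm_num)
      have h5 := h4.trans (h3.trans (pp_le (j i)))
      have h6 : (1 / 2 : ℝ) ^ (c * w0.length) * (1 / 2) = (1 / 2) ^ (c * w0.length + 1) := by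
        rw [pow_succ]
      rw [h6] at h5
      have h7 : j i ^ 2 ≤ c * w0.length + 1 := by
        by_contra hcon
        have h8 : (1 / 2 : ℝ) ^ (j i ^ 2) < (1 / 2) ^ (c * w0.length + 1) :=
          pow_lt_pow_right_of_lt_one₀ (by norm_num) (by norm_num) (not_le.1 hcon)
        linarith
      refine h7.trans ?_
      have : c * w0.length ≤ c * (K * n) := Nat.mul_le_mul_left _ hl0
      omega
    -- pigeonhole: some `j i` is at least `m`
    by_contra hcon
    rw [not_le] at hcon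
    have hlt : ∀ i ∈ Finset.range (m + 1), j i ∈ Finset.range m := by
      intro i hi
      rw [Finset.mem_range] at hi ⊢
      have h1 := hup i (by omega)
      by_contra h2
      have h3 : m ^ 2 ≤ j i ^ 2 := Nat.pow_le_pow_left (not_lt.1 h2) 2
      omega
    obtain ⟨i, hi, i', hi', hne, heq⟩ := Finset.exists_ne_map_eq_of_card_lt_of_maps_to
      (by simp : (Finset.range m).card < (Finset.range (m + 1)).card) hlt
    rw [Finset.mem_range] at hi hi'
    rcases lt_or_gt_of_ne hne with h | h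
    · exact hinj i i' (by omega) (by omega) h heq
    · exact hinj i' i (by omega) (by omega) h heq.symm
  -- conclude
  refine ⟨a * (4 * (c * K + 1) * a + 4), fun n hn hcopy => ?_⟩
  -- take `m = n / a - 1`
  have hq : 4 * (c * K + 1) * a + 4 ≤ n / a := (Nat.le_div_iff_mul_le ha0).2 (by
    rw [mul_comm]; exact hn)
  obtain ⟨m, hm⟩ : ∃ m, n / a = m + 1 := ⟨n / a - 1, by omega⟩
  have h1 := key n hcopy m (by rw [← hm]; exact Nat.mul_div_le n a)
  have h2 : n < a * (m + 2) := by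
    have := Nat.lt_mul_div_succ n ha0
    rw [hm] at this
    exact this
  have h3 : c * (K * n) + 1 ≤ (c * K + 1) * (a * (m + 2)) := by
    have h4 : c * (K * n) ≤ c * (K * (a * (m + 2))) :=
      Nat.mul_le_mul_left _ (Nat.mul_le_mul_left _ h2.le)
    have h5 : 1 ≤ a * (m + 2) := Nat.one_le_iff_ne_zero.2 (by positivity)
    nlinarith
  have h6 : 4 * (c * K + 1) * a + 3 ≤ m := by omega
  have h7 : (c * K + 1) * (a * (m + 2)) < m ^ 2 := by
    have h8 : (c * K + 1) * a * 4 ≤ m := by nlinarith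
    have h9 : 3 ≤ m := by omega
    nlinarith
  omega

end Pool.Agent.Results.MP_f4dda6_al.FarBalls
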